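import Pool.Agent.Lib.MP_dccecd_al.GrSym
import Pool.Agent.Lib.MP_dccecd_al.ComMain

/-!
Direct sum cancellation over von Neumann regular rings for modules extended from noetherian rings.

Let `R` be a von Neumann regular ring and let `C` be a finitely generated projective `R`-module with
a commuting action of a ring `T`. Assume that every finite subset of `T` is contained in a subring
`S` which is noetherian on both sides and in which every prime ideal `P` satisfies one of the
following two conditions.

* `KrullOne (S ⧸ P)`: the factors of `S ⧸ P` by the left and the right ideals which are generated by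
  a regular element are artinian (Krull dimension at most one on both sides).
* `EnoughFiltrations P`: every ideal which is not contained in `P` contains an ideal `J` which is not
  contained in `P` and satisfies `F (n + 1) J + J F (n + 1) ⊆ J F n J + P` for some filtration `F` of
  `S` by ideals strictly containing `P` whose associated graded ring is noetherian on both sides.

If finitely generated projective `T`-modules `P` and `Q` become isomorphic after adding a finitely
generated projective `T`-module `G`, then the `R`-modules `Hom_T(P, C)` and `Hom_T(Q, C)` are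
isomorphic (theorem `result`). Nothing is assumed on `R`, and cancellation fails over `T` itself.

The hypothesis on `T` holds for algebras which are finitely generated modules over a commutative ring
(theorem `finite_base`), for rings which are noetherian and have Krull dimension at most one on both
sides (theorem `krull_base`), for noetherian rings in which every ideal which is not contained in a
prime ideal `P` contains an ideal `J` which is not contained in `P` and for which the associated
graded ring of the ideals `J ^ n + P` is noetherian on both sides (theorem `graded_base`), for simple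
noetherian rings (theorem `simple_base`), and for noetherian rings in which every nonzero ideal of
every prime factor ring contains a nonzero normal element (theorem `normal_base`). Three
applications are proved. If `T` is commutative, `C ⊗[T] P` and `C ⊗[T] Q` are isomorphic (theorem
`commutative`). If `a` is an element of `T` with a quasi-inverse in `T`, then the endomorphism of `C`
given by `a` is unit-regular (theorem `unit_regular`). If `R` itself satisfies the hypothesis on `T`,
then `R` is unit-regular (theorem `regular_ring`).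
-/

open TensorProduct

universe u v w x

namespace Pool.Agent.Results.MP_dccecd_al.FilteredBase

/-- The factors of `S` by the left ideals and by the right ideals which are generated by a regular
element are artinian. (If `S` is a prime ring which is noetherian on both sides, this says that `S`
has Krull dimension at most one on both sides.) -/
def KrullOne (S : Type v) [Ring S] : Prop :=
  (∀ s ∈ nonZeroDivisors S, IsArtinian S (S ⧸ Ideal.span {s})) ∧
    ∀ s ∈ nonZeroDivisors Sᵐᵒᵖ, IsArtinian Sᵐᵒᵖ (Sᵐᵒᵖ ⧸ Ideal.span {s})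

/-- A filtration `S = F 0 ⊇ F 1 ⊇ F 2 ⊇ ⋯` by ideals with `F m F n ⊆ F (m + n)` whose associated
graded ring satisfies the ascending chain condition on both sides, in the following form: for
elements `a k` of `F (n k)` with `n 0 < n 1 < ⋯` there is `k` such that `a k` is congruent modulo
`F (n k + 1)` to a sum of elements `a j * c j` (of elements `c j * a j`) with `j < k` and `c j` in
`F (n k - n j)`. (If `S` is noetherian on both sides, this says that the associated graded ring is
noetherian on both sides.) -/
structure NoetherianFiltration {S : Type v} [Ring S] (F : ℕ → Ideal S) : Prop where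
  two_sided : ∀ n, (F n).IsTwoSided
  zero : F 0 = ⊤
  anti : ∀ n, F (n + 1) ≤ F n
  mul : ∀ m n, ∀ a ∈ F m, ∀ b ∈ F n, a * b ∈ F (m + n)
  right : ∀ (n : ℕ → ℕ) (a : ℕ → S), StrictMono n → (∀ k, a k ∈ F (n k)) →
    ∃ k, ∃ c : ℕ → S, (∀ j < k, c j ∈ F (n k - n j)) ∧
      a k - ∑ j ∈ Finset.range k, a j * c j ∈ F (n k + 1)
  left : ∀ (n : ℕ → ℕ) (a : ℕ → S), StrictMono n → (∀ k, a k ∈ F (n k)) →
    ∃ k, ∃ c : ℕ → S, (∀ j < k, c j ∈ F (n k - n j)) ∧
      a k - ∑ j ∈ Finset.range k, c j * a j ∈ F (n k + 1)

/-- Every ideal which is not contained in `P` contains an ideal `J` which is not contained in `P`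
and satisfies `F (n + 1) J + J F (n + 1) ⊆ J F n J + P` for some filtration `F` by ideals strictly
containing `P` with noetherian associated graded ring. -/
def EnoughFiltrations {S : Type v} [Ring S] (P : Ideal S) : Prop :=
  ∀ I : Ideal S, I.IsTwoSided → ¬ I ≤ P → ∃ J : Ideal S, J.IsTwoSided ∧ J ≤ I ∧ ¬ J ≤ P ∧
    ∃ F : ℕ → Ideal S, NoetherianFiltration F ∧ (∀ n, P ≤ F n) ∧ (∀ n, ¬ F n ≤ P) ∧
      (∀ n, F (n + 1) * J ≤ J * F n * J ⊔ P) ∧ ∀ n, J * F (n + 1) ≤ J * F n * J ⊔ P

/-- Every finite subset of `T` is contained in a subring which is noetherian on both sides and all of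
whose prime ideals satisfy `KrullOne` or `EnoughFiltrations`. -/
def LocallyGood (T : Type v) [Ring T] : Prop :=
  ∀ s : Finset T, ∃ S : Subring T, (s : Set T) ⊆ S ∧ IsNoetherianRing S ∧ IsNoetherianRing Sᵐᵒᵖ ∧
    ∀ (P : Ideal S) [P.IsTwoSided], (∀ a b : S, (∀ t, a * t * b ∈ P) → a ∈ P ∨ b ∈ P) →
      KrullOne (S ⧸ P) ∨ EnoughFiltrations P

theorem grAt {S : Type v} [Ring S] {P : Ideal S} (h : EnoughFiltrations P) : SepGr.GrAt P := by
  intro I hI hIP
  obtain ⟨J, hJ, hJI, hJP, F, hF, h1, h2, h3, h4⟩ := h I hI hIP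
  exact ⟨J, hJ, hJI, hJP, F, ⟨hF.two_sided, hF.zero, hF.anti, hF.mul⟩, h1, h2, hF.right, hF.left,
    h3, h4⟩

theorem locGrd {T : Type v} [Ring T] (h : LocallyGood T) : SepGr.LocGrd T := by
  intro s
  obtain ⟨S, h1, h2, h3, h4⟩ := h s
  refine ⟨S, h1, h2, h3, fun P hP hp => ?_⟩
  rcases h4 P hp with h5 | h5
  · exact Or.inl h5
  · exact Or.inr (grAt h5)

end Pool.Agent.Results.MP_dccecd_al.FilteredBase

theorem Pool.Agent.Results.MP_dccecd_al.FilteredBase.result
    (R : Type u) [Ring R] (hR : ∀ a : R, ∃ x : R, a * x * a = a) (T : Type v) [Ring T]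
    (hT : Pool.Agent.Results.MP_dccecd_al.FilteredBase.LocallyGood T)
    (C : Type u) [AddCommGroup C] [Module R C] [Module T C] [SMulCommClass T R C]
    [Module.Finite R C] [Module.Projective R C]
    (P Q G : Type x) [AddCommGroup P] [Module T P] [Module.Finite T P] [Module.Projective T P]
    [AddCommGroup Q] [Module T Q] [Module.Finite T Q] [Module.Projective T Q]
    [AddCommGroup G] [Module T G] [Module.Finite T G] [Module.Projective T G]
    (h : Nonempty ((P × G) ≃ₗ[T] (Q × G))) :
    Nonempty ((P →ₗ[T] C) ≃ₗ[R] (Q →ₗ[T] C)) := by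
  obtain ⟨φ⟩ := h
  exact SepGr.module_grd hR (Pool.Agent.Results.MP_dccecd_al.FilteredBase.locGrd hT) P Q G φ

/-- algebras which are finitely generated modules over a commutative ring -/
theorem Pool.Agent.Results.MP_dccecd_al.FilteredBase.finite_base
    (R : Type u) [Ring R] (hR : ∀ a : R, ∃ x : R, a * x * a = a)
    (A : Type w) [CommRing A] (T : Type v) [Ring T] [Algebra A T] [Module.Finite A T]
    (C : Type u) [AddCommGroup C] [Module R C] [Module T C] [SMulCommClass T R C]
    [Module.Finite R C] [Module.Projective R C]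
    (P Q G : Type x) [AddCommGroup P] [Module T P] [Module.Finite T P] [Module.Projective T P]
    [AddCommGroup Q] [Module T Q] [Module.Finite T Q] [Module.Projective T Q]
    [AddCommGroup G] [Module T G] [Module.Finite T G] [Module.Projective T G]
    (h : Nonempty ((P × G) ≃ₗ[T] (Q × G))) :
    Nonempty ((P →ₗ[T] C) ≃ₗ[R] (Q →ₗ[T] C)) := by
  obtain ⟨φ⟩ := h
  exact SepGr.module_grd hR (SepGr.locGrd_of_locNor
    (SepNoe.locNor_of_locCen (SepNoe.locCen_finite (A := A)))) P Q G φ

/-- Rings which are noetherian and have Krull dimension at most one on both sides: for every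
descending sequence of left ideals or of right ideals, some factor of two successive terms is
artinian. -/
theorem Pool.Agent.Results.MP_dccecd_al.FilteredBase.krull_base
    (R : Type u) [Ring R] (hR : ∀ a : R, ∃ x : R, a * x * a = a)
    (T : Type v) [Ring T] [IsNoetherianRing T] [IsNoetherianRing Tᵐᵒᵖ]
    (hT : ∀ L : ℕ → Ideal T, Antitone L →
      ∃ n, IsArtinian T (L n ⧸ Submodule.comap (L n).subtype (L (n + 1))))
    (hT' : ∀ L : ℕ → Ideal Tᵐᵒᵖ, Antitone L →
      ∃ n, IsArtinian Tᵐᵒᵖ (L n ⧸ Submodule.comap (L n).subtype (L (n + 1))))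
    (C : Type u) [AddCommGroup C] [Module R C] [Module T C] [SMulCommClass T R C]
    [Module.Finite R C] [Module.Projective R C]
    (P Q G : Type x) [AddCommGroup P] [Module T P] [Module.Finite T P] [Module.Projective T P]
    [AddCommGroup Q] [Module T Q] [Module.Finite T Q] [Module.Projective T Q]
    [AddCommGroup G] [Module T G] [Module.Finite T G] [Module.Projective T G]
    (h : Nonempty ((P × G) ≃ₗ[T] (Q × G))) :
    Nonempty ((P →ₗ[T] C) ≃ₗ[R] (Q →ₗ[T] C)) := by
  obtain ⟨φ⟩ := h
  exact SepGr.module_grd hR (SepGr.locGrd_of_grd (SepGr.grd_of_kr hT hT')) P Q G φ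

/-- noetherian rings in which every ideal which is not contained in a prime ideal `P` contains an
ideal `J` which is not contained in `P` such that the associated graded ring of the filtration by the
ideals `J ^ n + P` is noetherian on both sides -/
theorem Pool.Agent.Results.MP_dccecd_al.FilteredBase.graded_base
    (R : Type u) [Ring R] (hR : ∀ a : R, ∃ x : R, a * x * a = a)
    (T : Type v) [Ring T] [IsNoetherianRing T] [IsNoetherianRing Tᵐᵒᵖ]
    (hT : ∀ P : Ideal T, P.IsTwoSided → (∀ a b : T, (∀ t, a * t * b ∈ P) → a ∈ P ∨ b ∈ P) →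
      ∀ I : Ideal T, I.IsTwoSided → ¬ I ≤ P →
        ∃ J : Ideal T, J.IsTwoSided ∧ J ≤ I ∧ ¬ J ≤ P ∧
          Pool.Agent.Results.MP_dccecd_al.FilteredBase.NoetherianFiltration fun n => J ^ n ⊔ P)
    (C : Type u) [AddCommGroup C] [Module R C] [Module T C] [SMulCommClass T R C]
    [Module.Finite R C] [Module.Projective R C]
    (P Q G : Type x) [AddCommGroup P] [Module T P] [Module.Finite T P] [Module.Projective T P]
    [AddCommGroup Q] [Module T Q] [Module.Finite T Q] [Module.Projective T Q]
    [AddCommGroup G] [Module T G] [Module.Finite T G] [Module.Projective T G]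
    (h : Nonempty ((P × G) ≃ₗ[T] (Q × G))) :
    Nonempty ((P →ₗ[T] C) ≃ₗ[R] (Q →ₗ[T] C)) := by
  obtain ⟨φ⟩ := h
  refine SepGr.module_grd hR (SepGr.locGrd_of_grd fun P hP hp => Or.inr fun I hI hIP => ?_) P Q G φ
  obtain ⟨J, hJ, hJI, hJP, hF⟩ := hT P hP hp I hI hIP
  exact ⟨J, hJ, hJI, hJP, fun n => J ^ n ⊔ P, ⟨hF.two_sided, hF.zero, hF.anti, hF.mul⟩,
    fun n => le_sup_right, fun n hle => SepGr.pow_not_le hp hJ hJP n (le_trans le_sup_left hle),
    hF.right, hF.left, SepGr.jf_l hP le_sup_left le_sup_left,
    SepGr.jf_r hP hJ hJ le_sup_left le_sup_left⟩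

/-- noetherian rings in which every nonzero ideal of every prime factor ring contains a nonzero
normal element -/
theorem Pool.Agent.Results.MP_dccecd_al.FilteredBase.normal_base
    (R : Type u) [Ring R] (hR : ∀ a : R, ∃ x : R, a * x * a = a)
    (T : Type v) [Ring T] [IsNoetherianRing T] [IsNoetherianRing Tᵐᵒᵖ]
    (hT : ∀ P : Ideal T, P.IsTwoSided → (∀ a b : T, (∀ t, a * t * b ∈ P) → a ∈ P ∨ b ∈ P) →
      ∀ I : Ideal T, I.IsTwoSided → ¬ I ≤ P →
        ∃ z ∈ I, z ∉ P ∧ (∀ t, ∃ t', z * t - t' * z ∈ P) ∧ (∀ t, ∃ t', t * z - z * t' ∈ P))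
    (C : Type u) [AddCommGroup C] [Module R C] [Module T C] [SMulCommClass T R C]
    [Module.Finite R C] [Module.Projective R C]
    (P Q G : Type x) [AddCommGroup P] [Module T P] [Module.Finite T P] [Module.Projective T P]
    [AddCommGroup Q] [Module T Q] [Module.Finite T Q] [Module.Projective T Q]
    [AddCommGroup G] [Module T G] [Module.Finite T G] [Module.Projective T G]
    (h : Nonempty ((P × G) ≃ₗ[T] (Q × G))) :
    Nonempty ((P →ₗ[T] C) ≃ₗ[R] (Q →ₗ[T] C)) := by
  obtain ⟨φ⟩ := h
  exact SepGr.module_grd hR (SepGr.locGrd_of_grd (SepGr.grd_of_nor (SepNoe.nor_of_normal hT)))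
    P Q G φ

/-- the case of the powers of elements which are normal modulo the prime ideals: `z ∉ P` is normal
modulo `P` and satisfies `z J + P = J z + P ⊆ J ^ 2 + P` -/
theorem Pool.Agent.Results.MP_dccecd_al.FilteredBase.normal_powers
    (R : Type u) [Ring R] (hR : ∀ a : R, ∃ x : R, a * x * a = a) (T : Type v) [Ring T]
    (hT : ∀ s : Finset T, ∃ T0 : Subring T, (s : Set T) ⊆ T0 ∧ IsNoetherianRing T0 ∧
      IsNoetherianRing T0ᵐᵒᵖ ∧
      ∀ P : Ideal T0, P.IsTwoSided → (∀ a b : T0, (∀ t, a * t * b ∈ P) → a ∈ P ∨ b ∈ P) →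
        ∀ I : Ideal T0, I.IsTwoSided → ¬ I ≤ P →
          ∃ J : Ideal T0, J.IsTwoSided ∧ J ≤ I ∧ ¬ J ≤ P ∧
            ∃ z : T0, z ∉ P ∧ (∀ t, ∃ t', z * t - t' * z ∈ P) ∧ (∀ t, ∃ t', t * z - z * t' ∈ P) ∧
              (∀ j ∈ J, ∃ j' ∈ J, z * j - j' * z ∈ P) ∧ (∀ j ∈ J, ∃ j' ∈ J, j * z - z * j' ∈ P) ∧
                ∀ j ∈ J, z * j ∈ J * J ⊔ P)
    (C : Type u) [AddCommGroup C] [Module R C] [Module T C] [SMulCommClass T R C]
    [Module.Finite R C] [Module.Projective R C]
    (P Q G : Type x) [AddCommGroup P] [Module T P] [Module.Finite T P] [Module.Projective T P]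
    [AddCommGroup Q] [Module T Q] [Module.Finite T Q] [Module.Projective T Q]
    [AddCommGroup G] [Module T G] [Module.Finite T G] [Module.Projective T G]
    (h : Nonempty ((P × G) ≃ₗ[T] (Q × G))) :
    Nonempty ((P →ₗ[T] C) ≃ₗ[R] (Q →ₗ[T] C)) := by
  obtain ⟨φ⟩ := h
  exact SepGr.module_grd hR (SepGr.locGrd_of_locNor hT) P Q G φ

/-- simple noetherian rings -/
theorem Pool.Agent.Results.MP_dccecd_al.FilteredBase.simple_base
    (R : Type u) [Ring R] (hR : ∀ a : R, ∃ x : R, a * x * a = a)
    (T : Type v) [Ring T] [IsNoetherianRing T] [IsNoetherianRing Tᵐᵒᵖ]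
    (hT : ∀ I : Ideal T, I.IsTwoSided → I = ⊥ ∨ I = ⊤)
    (C : Type u) [AddCommGroup C] [Module R C] [Module T C] [SMulCommClass T R C]
    [Module.Finite R C] [Module.Projective R C]
    (P Q G : Type x) [AddCommGroup P] [Module T P] [Module.Finite T P] [Module.Projective T P]
    [AddCommGroup Q] [Module T Q] [Module.Finite T Q] [Module.Projective T Q]
    [AddCommGroup G] [Module T G] [Module.Finite T G] [Module.Projective T G]
    (h : Nonempty ((P × G) ≃ₗ[T] (Q × G))) :
    Nonempty ((P →ₗ[T] C) ≃ₗ[R] (Q →ₗ[T] C)) := by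
  obtain ⟨φ⟩ := h
  exact SepGr.module_grd hR (SepGr.locGrd_of_grd (SepGr.grd_of_nor (SepNoe.nor_of_simple hT)))
    P Q G φ

/-- the form with tensor products over a commutative ring -/
theorem Pool.Agent.Results.MP_dccecd_al.FilteredBase.commutative
    (R : Type u) [Ring R] (hR : ∀ a : R, ∃ x : R, a * x * a = a)
    (T : Type v) [CommRing T]
    (C : Type u) [AddCommGroup C] [Module R C] [Module T C] [SMulCommClass T R C]
    [Module.Finite R C] [Module.Projective R C]
    (P Q G : Type w) [AddCommGroup P] [Module T P] [Module.Finite T P] [Module.Projective T P]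
    [AddCommGroup Q] [Module T Q] [Module.Finite T Q] [Module.Projective T Q]
    [AddCommGroup G] [Module T G] [Module.Finite T G] [Module.Projective T G]
    (h : Nonempty ((P × G) ≃ₗ[T] (Q × G))) :
    Nonempty ((C ⊗[T] P) ≃ₗ[R] (C ⊗[T] Q)) := by
  obtain ⟨φ⟩ := h
  exact SepReg.module_main hR P Q G φ

/-- elements of `T` with a quasi-inverse in `T` act as unit-regular endomorphisms -/
theorem Pool.Agent.Results.MP_dccecd_al.FilteredBase.unit_regular_aux
    (R : Type u) [Ring R] (hR : ∀ a : R, ∃ x : R, a * x * a = a) (T : Type v) [Ring T]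
    (hT : SepGr.LocGrd T)
    (C : Type u) [AddCommGroup C] [Module R C] [Module T C] [SMulCommClass T R C]
    [Module.Finite R C] [Module.Projective R C] (a b : T) (hab : a * b * a = a) :
    ∃ w : C ≃ₗ[R] C, ∀ v : C, a • w (a • v) = a • v := by
  have hV : SepReg.VNR R := ⟨hR⟩
  set D : SepFin.Bim T R := { X := C, act := Module.toModuleEnd R C } with hD
  have hact : ∀ (t : T) (v : C), D.act t v = t • v := fun t v => rfl
  -- a quasi-inverse which is itself normalized
  set c := b * a * b with hc
  have h1 : a * c * a = a := by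
    calc a * c * a = (a * b * a) * b * a := by rw [hc]; noncomm_ring
      _ = a := by rw [hab, hab]
  have h2 : c * a * c = c := by
    calc c * a * c = b * ((a * b * a) * b * a) * b := by rw [hc]; noncomm_ring
      _ = c := by rw [hab, hab, hc]
  set e := 1 - a * c with he
  set f := 1 - c * a with hf
  have i1 : e * e = e := by
    calc e * e = 1 - a * c - a * c + (a * c * a) * c := by rw [he]; noncomm_ring
      _ = e := by rw [h1, he]; noncomm_ring
  have i2 : f * f = f := by
    calc f * f = 1 - c * a - c * a + (c * a * c) * a := by rw [hf]; noncomm_ring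
      _ = f := by rw [h2, hf]; noncomm_ring
  have af : a * f = 0 := by rw [hf, mul_sub, mul_one, ← mul_assoc, h1, sub_self]
  have ea : e * a = 0 := by rw [he, sub_mul, one_mul, h1, sub_self]
  have ce : c * e = 0 := by rw [he, mul_sub, mul_one, ← mul_assoc, h2, sub_self]
  have fc : f * c = 0 := by rw [hf, sub_mul, one_mul, h2, sub_self]
  obtain ⟨g⟩ := SepReg.cls_eq.mp (SepGr.loc_grd (R := R) hT (e := e) (f := f) (x := a)
    (y := c) i1 i2 (by rw [he, sub_sub_cancel]) (by rw [hf, sub_sub_cancel]) D)
  set er := (D.act e).rangeRestrict with her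
  set fr := (D.act f).rangeRestrict with hfr
  have re : ∀ w : LinearMap.range (D.act e), er w.1 = w := by
    intro w
    apply Subtype.ext
    exact (SepFin.mem_range_act i1).mp w.2
  have rf : ∀ w : LinearMap.range (D.act f), fr w.1 = w := by
    intro w
    apply Subtype.ext
    exact (SepFin.mem_range_act i2).mp w.2
  have ge : ∀ w : LinearMap.range (D.act e), e • w.1 = w.1 := fun w => congrArg Subtype.val (re w)
  have gf : ∀ w : LinearMap.range (D.act f), f • w.1 = w.1 := fun w => congrArg Subtype.val (rf w)
  have ag : ∀ w : LinearMap.range (D.act f), a • w.1 = 0 := by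
    intro w
    rw [← gf w, smul_smul, af, zero_smul]
  have cg : ∀ w : LinearMap.range (D.act e), c • w.1 = 0 := by
    intro w
    rw [← ge w, smul_smul, ce, zero_smul]
  have erc : ∀ v : C, er (a • v) = 0 := by
    intro v
    apply Subtype.ext
    change e • (a • v) = 0
    rw [smul_smul, ea, zero_smul]
  have frc : ∀ v : C, fr (c • v) = 0 := by
    intro v
    apply Subtype.ext
    change f • (c • v) = 0
    rw [smul_smul, fc, zero_smul]
  have erv : ∀ v : C, (er v).1 = v - (a * c) • v := by
    intro v
    change e • v = _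
    rw [he, sub_smul, one_smul]
  have frv : ∀ v : C, (fr v).1 = v - (c * a) • v := by
    intro v
    change f • v = _
    rw [hf, sub_smul, one_smul]
  set w1 : C →ₗ[R] C := D.act c + (LinearMap.range (D.act f)).subtype.comp (g.toLinearMap.comp er)
    with hw1
  set w2 : C →ₗ[R] C := D.act a +
    (LinearMap.range (D.act e)).subtype.comp (g.symm.toLinearMap.comp fr) with hw2
  have w1a : ∀ v, w1 v = c • v + (g (er v)).1 := fun v => rfl
  have w2a : ∀ v, w2 v = a • v + (g.symm (fr v)).1 := fun v => rfl
  have l : ∀ v, w2 (w1 v) = v := by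
    intro v
    rw [w2a, w1a, smul_add, ag, add_zero, map_add fr, frc, zero_add, rf,
      LinearEquiv.symm_apply_apply, erv, smul_smul, add_sub_cancel]
  have r : ∀ v, w1 (w2 v) = v := by
    intro v
    rw [w1a, w2a, smul_add, cg, add_zero, map_add er, erc, zero_add, re,
      LinearEquiv.apply_symm_apply, frv, smul_smul, add_sub_cancel]
  refine ⟨LinearEquiv.ofLinear w1 w2 (LinearMap.ext r) (LinearMap.ext l), ?_⟩
  intro v
  change a • w1 (a • v) = a • v
  rw [w1a, erc, map_zero]
  change a • (c • (a • v) + 0) = a • v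
  rw [add_zero, smul_smul, smul_smul, h1]

/-- elements of `T` with a quasi-inverse in `T` act as unit-regular endomorphisms -/
theorem Pool.Agent.Results.MP_dccecd_al.FilteredBase.unit_regular
    (R : Type u) [Ring R] (hR : ∀ a : R, ∃ x : R, a * x * a = a) (T : Type v) [Ring T]
    (hT : Pool.Agent.Results.MP_dccecd_al.FilteredBase.LocallyGood T)
    (C : Type u) [AddCommGroup C] [Module R C] [Module T C] [SMulCommClass T R C]
    [Module.Finite R C] [Module.Projective R C] (a b : T) (hab : a * b * a = a) :
    ∃ w : C ≃ₗ[R] C, ∀ v : C, a • w (a • v) = a • v :=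
  Pool.Agent.Results.MP_dccecd_al.FilteredBase.unit_regular_aux R hR T
    (Pool.Agent.Results.MP_dccecd_al.FilteredBase.locGrd hT) C a b hab

/-- regular rings in which every finite subset is contained in such a subring are unit-regular -/
theorem Pool.Agent.Results.MP_dccecd_al.FilteredBase.regular_ring
    (R : Type u) [Ring R] (hR : ∀ a : R, ∃ x : R, a * x * a = a)
    (hT : Pool.Agent.Results.MP_dccecd_al.FilteredBase.LocallyGood R) :
    ∀ a : R, ∃ w : Rˣ, a * w * a = a := by
  intro a
  obtain ⟨b, hb⟩ := hR a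
  obtain ⟨w, hw⟩ := Pool.Agent.Results.MP_dccecd_al.FilteredBase.unit_regular_aux R hR Rᵐᵒᵖ
    (SepGr.locGrd_op (Pool.Agent.Results.MP_dccecd_al.FilteredBase.locGrd hT)) R (MulOpposite.op a) (MulOpposite.op b) (by
      rw [← MulOpposite.op_mul, ← MulOpposite.op_mul, ← mul_assoc, hb])
  have h1 : ∀ v : R, w v = v * w 1 := by
    intro v
    have h2 := w.map_smul v 1
    rwa [smul_eq_mul, mul_one, smul_eq_mul] at h2
  have h2 : ∀ v : R, w.symm v = v * w.symm 1 := by
    intro v
    have h2 := w.symm.map_smul v 1
    rwa [smul_eq_mul, mul_one, smul_eq_mul] at h2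
  refine ⟨⟨w 1, w.symm 1, ?_, ?_⟩, ?_⟩
  · rw [← h2, LinearEquiv.symm_apply_apply]
  · rw [← h1, LinearEquiv.apply_symm_apply]
  · have h3 := hw 1
    rw [MulOpposite.smul_eq_mul_unop, MulOpposite.smul_eq_mul_unop, MulOpposite.unop_op, one_mul,
      h1 a] at h3
    exact h3
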