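import Pool.Agent.Lib.MP_dccecd_al.Ideals

/-!
Separativity of von Neumann regular algebras over large fields.

Let `κ` be an uncountable regular cardinal, `K` a field with at least `κ` elements and `R` a von
Neumann regular `K`-algebra. Suppose that for every proper two-sided ideal `I` there is an element
`r` outside `I` such that every independent family of `κ` (or more) finitely generated left ideals
`N i` contained in `R r` and not contained in `I` has two distinct members `N i`, `N j` with a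
homomorphism from `N i` to `N j` whose kernel lies in `I`, and has a member with
`r ∈ I + R (N i) R`. Then `R` is separative.

The hypothesis holds if `R` has no independent family of `κ` nonzero left ideals (theorem
`no_large_sum` below). It also holds if among any `κ` finitely generated left ideals two are
isomorphic and every nonzero factor ring has a minimal nonzero two-sided ideal (theorem `cover`
below), for instance if `R` is simple.
-/

open Cardinal

universe u

theorem Pool.Agent.Results.MP_dccecd_al.LargeField.result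
    (κ : Cardinal.{u}) (hκ : κ.IsRegular) (hκ0 : ℵ₀ < κ)
    (K : Type u) [Field K] (hK : κ ≤ #K)
    (R : Type u) [Ring R] [Algebra K R] (hreg : ∀ a : R, ∃ x : R, a * x * a = a)
    (hcrit : ∀ I : TwoSidedIdeal R, I ≠ ⊤ → ∃ r : R, r ∉ I ∧
      ∀ (ι : Type u) (N : ι → Ideal R), κ ≤ #ι →
        (∀ i, (N i).FG ∧ N i ≤ Ideal.span {r} ∧ ∃ x ∈ N i, x ∉ I) → iSupIndep N →
        (∃ i j, i ≠ j ∧ ∃ f : N i →ₗ[R] N j, ∀ x, f x = 0 → (x : R) ∈ I) ∧
        ∃ i, r ∈ I ⊔ TwoSidedIdeal.span (N i : Set R)) :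
    ∀ (A B : Type u) [AddCommGroup A] [Module R A] [AddCommGroup B] [Module R B],
      Module.Finite R A → Module.Projective R A →
      Module.Finite R B → Module.Projective R B →
      Nonempty ((A × A) ≃ₗ[R] (A × B)) →
      Nonempty ((A × B) ≃ₗ[R] (B × B)) →
      Nonempty (A ≃ₗ[R] B) := by
  have : SepReg.VNR R := ⟨hreg⟩
  have hall := SepReg.separative_of_critical (K := K) κ hκ hκ0 hK hcrit
  intro A B _ _ _ _ hA1 hA2 hB1 hB2 h1 h2
  have e1 : SepReg.cls R A + SepReg.cls R A = SepReg.cls R A + SepReg.cls R B := by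
    rw [← SepReg.cls_prod, ← SepReg.cls_prod]
    exact SepReg.cls_eq.mpr h1
  have e2 : SepReg.cls R A + SepReg.cls R B = SepReg.cls R B + SepReg.cls R B := by
    rw [← SepReg.cls_prod, ← SepReg.cls_prod]
    exact SepReg.cls_eq.mpr h2
  apply SepReg.cls_eq.mp
  have hg : SepReg.Good (SepReg.cls R A) := (hall (SepReg.cls R A)).good
  apply hg _ _ SepReg.Le.rfl'.idl
  · refine ⟨2, ?_⟩
    rw [two_nsmul, ← e2]
    exact SepReg.Le.left _ _
  · rw [e1, add_comm]

/-- the case of rings without large direct sums of left ideals -/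
theorem Pool.Agent.Results.MP_dccecd_al.LargeField.no_large_sum
    (κ : Cardinal.{u}) (hκ : κ.IsRegular) (hκ0 : ℵ₀ < κ)
    (K : Type u) [Field K] (hK : κ ≤ #K)
    (R : Type u) [Ring R] [Algebra K R] (hreg : ∀ a : R, ∃ x : R, a * x * a = a)
    (hsum : ∀ (ι : Type u) (N : ι → Ideal R), κ ≤ #ι → iSupIndep N → ∃ i, N i = ⊥) :
    ∀ (A B : Type u) [AddCommGroup A] [Module R A] [AddCommGroup B] [Module R B],
      Module.Finite R A → Module.Projective R A →
      Module.Finite R B → Module.Projective R B →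
      Nonempty ((A × A) ≃ₗ[R] (A × B)) →
      Nonempty ((A × B) ≃ₗ[R] (B × B)) →
      Nonempty (A ≃ₗ[R] B) := by
  apply Pool.Agent.Results.MP_dccecd_al.LargeField.result κ hκ hκ0 K hK R hreg
  intro I hI
  obtain ⟨r, hr⟩ : ∃ r : R, r ∉ I := by
    by_contra h
    push Not at h
    exact hI (eq_top_iff.mpr fun x _ => h x)
  refine ⟨r, hr, fun ι N hι hN hind => ?_⟩
  obtain ⟨i, hi⟩ := hsum ι N hι hind
  obtain ⟨-, -, x, hxN, hxI⟩ := hN i
  rw [hi, Submodule.mem_bot] at hxN
  exact absurd (hxN ▸ I.zero_mem) hxI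

/-- the case of rings with few finitely generated projective modules all of whose nonzero factor
rings have a minimal nonzero two-sided ideal -/
theorem Pool.Agent.Results.MP_dccecd_al.LargeField.cover
    (κ : Cardinal.{u}) (hκ : κ.IsRegular) (hκ0 : ℵ₀ < κ)
    (K : Type u) [Field K] (hK : κ ≤ #K)
    (R : Type u) [Ring R] [Algebra K R] (hreg : ∀ a : R, ∃ x : R, a * x * a = a)
    (hfew : ∀ (ι : Type u) (N : ι → Ideal R), κ ≤ #ι → (∀ i, (N i).FG) →
      ∃ i j, i ≠ j ∧ Nonempty (N i ≃ₗ[R] N j))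
    (hmin : ∀ I : TwoSidedIdeal R, I ≠ ⊤ → ∃ J : TwoSidedIdeal R, I ⋖ J) :
    ∀ (A B : Type u) [AddCommGroup A] [Module R A] [AddCommGroup B] [Module R B],
      Module.Finite R A → Module.Projective R A →
      Module.Finite R B → Module.Projective R B →
      Nonempty ((A × A) ≃ₗ[R] (A × B)) →
      Nonempty ((A × B) ≃ₗ[R] (B × B)) →
      Nonempty (A ≃ₗ[R] B) := by
  apply Pool.Agent.Results.MP_dccecd_al.LargeField.result κ hκ hκ0 K hK R hreg
  intro I hI
  obtain ⟨J, hJ⟩ := hmin I hI
  obtain ⟨r, hrJ, hrI⟩ := SetLike.exists_of_lt hJ.lt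
  refine ⟨r, hrI, fun ι N hι hN hind => ⟨?_, ?_⟩⟩
  · obtain ⟨i, j, hij, ⟨e⟩⟩ := hfew ι N hι (fun i => (hN i).1)
    refine ⟨i, j, hij, e.toLinearMap, fun x hx => ?_⟩
    have hx0 : x = 0 := e.map_eq_zero_iff.mp hx
    rw [hx0]
    exact I.zero_mem
  · have hne : Nonempty ι := by
      rw [← mk_ne_zero_iff]
      intro h0
      rw [h0] at hι
      exact absurd (hκ0.trans_le hι) (not_lt.mpr zero_le)
    obtain ⟨i⟩ := hne
    obtain ⟨-, hNr, x, hxN, hxI⟩ := hN i
    refine ⟨i, ?_⟩
    have hJ2 : I ⊔ TwoSidedIdeal.span (N i : Set R) ≤ J := by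
      refine sup_le hJ.le ?_
      rw [TwoSidedIdeal.span_le]
      intro y hy
      obtain ⟨z, rfl⟩ := Ideal.mem_span_singleton'.mp (hNr hy)
      exact J.mul_mem_left z r hrJ
    have hlt : I < I ⊔ TwoSidedIdeal.span (N i : Set R) := by
      refine lt_of_le_of_ne le_sup_left ?_
      intro heq
      apply hxI
      rw [heq]
      exact (le_sup_right : TwoSidedIdeal.span (N i : Set R) ≤ _)
        (TwoSidedIdeal.subset_span hxN)
    rcases hJ2.lt_or_eq with h | h
    · exact absurd h (hJ.2 hlt)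
    · rw [h]
      exact hrJ
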